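import Pool.Agent.H29.RQ.Targets

set_option autoImplicit false

/-!
MP_c65535_nt: module WG (board rdq_modules): the wild groups.
-/

namespace Pool.Agent.H4.RQ

open Pool.Agent.H29.RQ Pool.Agent.H23.RDD Pool.Agent.H24.RD NumberField Height Finset Polynomial

section gen

variable {F M : Type} [Field F] [Field M] [Algebra F M]

theorem unit_of_close (v : AbsoluteValue M ℝ) (hna : IsNonarchimedean v) {ρ : ℝ} (hρ1 : ρ < 1)
    (a : M) (h : v (a - 1) ≤ ρ) : v a = 1 := by
  apply le_antisymm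
  · have h1 := hna (a - 1) 1
    rw [sub_add_cancel, map_one] at h1
    exact h1.trans (max_le (h.trans hρ1.le) le_rfl)
  · by_contra hlt
    push Not at hlt
    have h1 := hna a (-(a - 1))
    have e : a + -(a - 1) = 1 := by ring
    rw [e, map_one, map_neg_eq_map] at h1
    rcases le_max_iff.1 h1 with h2 | h2
    · linarith
    · linarith

/-- The wild group. -/
def WW (v : AbsoluteValue M ℝ) (hna : IsNonarchimedean v) (ρ : ℝ) (hρ0 : 0 < ρ) (hρ1 : ρ < 1)
    (V : Subgroup (M ≃ₐ[F] M)) : Subgroup (M ≃ₐ[F] M) where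
  carrier := {t | t ∈ V ∧ ∀ x : M, x ≠ 0 → v (t x / x - 1) ≤ ρ}
  mul_mem' := by
    rintro t s ⟨ht, ht'⟩ ⟨hs, hs'⟩
    refine ⟨V.mul_mem ht hs, fun x hx => ?_⟩
    have hsx : s x ≠ 0 := (map_ne_zero_iff _ s.injective).2 hx
    have e : (t * s) x / x - 1 = (t (s x) / s x - 1) * (s x / x) + (s x / x - 1) := by
      rw [AlgEquiv.mul_apply]
      field_simp
      ring
    rw [e]
    refine (hna _ _).trans (max_le ?_ (hs' x hx))
    rw [map_mul, unit_of_close v hna hρ1 _ (hs' x hx), mul_one]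
    exact ht' _ hsx
  one_mem' := by
    refine ⟨V.one_mem, fun x hx => ?_⟩
    rw [AlgEquiv.one_apply, div_self hx, sub_self, map_zero]
    exact hρ0.le
  inv_mem' := by
    rintro t ⟨ht, ht'⟩
    refine ⟨V.inv_mem ht, fun x hx => ?_⟩
    set y : M := t⁻¹ x with hy
    have hty : t y = x := by
      rw [hy, ← AlgEquiv.mul_apply, mul_inv_cancel, AlgEquiv.one_apply]
    have hy0 : y ≠ 0 := by
      intro h
      rw [h, map_zero] at hty
      exact hx hty.symm
    have h1 := ht' y hy0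
    rw [hty] at h1
    have h2 := unit_of_close v hna hρ1 _ h1
    have e : y / x - 1 = -((x / y - 1) * (x / y)⁻¹) := by
      field_simp
      ring
    rw [e, map_neg_eq_map, map_mul, map_inv₀, h2, inv_one, mul_one]
    exact h1

end gen

open Classical in
theorem pf_WG (h1 : T_VB) (h2 : T_CO) (h3 : T_GEN) (h4 : T_LI) (h5 : T_WT) : T_WG := by
  intro F _ _ p hp r γ hγ
  obtain ⟨CL, hCL0⟩ := h4 F p hp r γ hγ
  refine ⟨CL + 2, ?_⟩
  intro M _ _ _ _ _ n1 n2 j K' T hK' hn2 hn1 hT hbig hcard hζ hθ1 hθ2 v hv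
  obtain ⟨hna, hp0, hint, -, -, hprim, -⟩ := h1 M p hp v hv
  obtain ⟨ζ, hζ⟩ := hζ
  obtain ⟨x0, hx0⟩ := h3 F M p hp v hv
  have hTR : (1 : ℝ) ≤ T := by exact_mod_cast hT
  have hρ0 : 0 < v.1 (p : M) ^ (1 / ((2 * T : ℕ) : ℝ)) := Real.rpow_pos_of_pos hp0 _
  have hρ1 : v.1 (p : M) ^ (1 / ((2 * T : ℕ) : ℝ)) < 1 := by
    refine Real.rpow_lt_one hp0.le hv ?_
    have : (0 : ℝ) < ((2 * T : ℕ) : ℝ) := by
      have : 0 < 2 * T := by omega
      exact_mod_cast this
    positivity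
  set V := VV F M γ p n1 K' with hV
  refine ⟨WW v.1 hna _ hρ0 hρ1 V, fun t ht => ht.1, fun t ht => ht.2, ?_⟩
  set W := WW v.1 hna _ hρ0 hρ1 V with hW
  have hlogp : Real.log (v.1 (p : M)) < 0 := Real.log_neg hp0 hv
  -- nonnegativity
  have hnn : ∀ t : M ≃ₐ[F] M, 0 ≤ wv v.1 p (t x0 - x0) := by
    intro t
    have hi : IsIntegral ℤ (t x0 - x0) := by
      refine IsIntegral.sub ?_ hx0.int
      exact hx0.int.map (t.toAlgHom.restrictScalars ℤ)
    have h : v.1 (t x0 - x0) ≤ 1 := hint _ hi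
    have h' : Real.log (v.1 (t x0 - x0)) ≤ 0 := Real.log_nonpos (AbsoluteValue.nonneg _ _) h
    exact div_nonneg_of_nonpos h' hlogp.le
  -- the wild elements
  have hpow1 : IsPrimitiveRoot (ζ ^ (p ^ (n2 - n1))) (p ^ n1) := by
    refine hζ.pow (pow_pos hp.pos _) ?_
    rw [← pow_add]
    congr 1
    omega
  have hwild : ∀ t ∈ V, t ≠ 1 → 1 / (T : ℝ) ≤ wv v.1 p (t x0 - x0) → t ∈ W := by
    intro t ht ht1 hct
    refine ⟨ht, fun x hx => ?_⟩
    have hfix : t (ζ ^ (p ^ (n2 - n1))) = ζ ^ (p ^ (n2 - n1)) :=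
      ht _ (Or.inr (Or.inl hpow1.pow_eq_one))
    exact h5 F M p hp v hv x0 hx0 t T hT ht1 hct n1 _ hpow1 hfix hn1 hbig x hx
  -- the mass
  have hz : IsPrimitiveRoot (ζ ^ (p ^ (2 * j))) (p ^ (n1 + (CL + 2))) := by
    refine hζ.pow (pow_pos hp.pos _) ?_
    rw [← pow_add]
    congr 1
    omega
  set z : M := ζ ^ (p ^ (2 * j)) with hzd
  have hsum := hCL0 M n1 (n1 + (CL + 2)) K' hK' (by omega) z hz hθ1 hθ2 v hv x0 hx0
  set S : Finset (M ≃ₐ[F] M) :=
    univ.filter (fun t : M ≃ₐ[F] M => t ∈ VV F M γ p n1 K' ∧ t z ≠ z) with hS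
  have hsum2 : (2 : ℝ) ≤ ∑ t ∈ S, wv v.1 p (t x0 - x0) := by
    refine le_trans (le_of_eq ?_) hsum
    push_cast
    ring
  have hsplit := Finset.sum_filter_add_sum_filter_not S (fun t => t ∈ W)
    (fun t => wv v.1 p (t x0 - x0))
  have hsmall : ∑ t ∈ S.filter (fun t => t ∉ W), wv v.1 p (t x0 - x0) ≤ 1 := by
    have hc : ((S.filter (fun t => t ∉ W)).card : ℝ) ≤ T := by
      have h0 : (S.filter (fun t => t ∉ W)).card ≤ Nat.card V := by
        rw [Nat.card_eq_fintype_card, Fintype.card_subtype]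
        apply Finset.card_le_card
        intro t ht
        rw [Finset.mem_filter, hS, Finset.mem_filter] at ht
        rw [Finset.mem_filter]
        exact ⟨Finset.mem_univ _, ht.1.2.1⟩
      exact_mod_cast h0.trans hcard
    calc ∑ t ∈ S.filter (fun t => t ∉ W), wv v.1 p (t x0 - x0)
        ≤ ∑ t ∈ S.filter (fun t => t ∉ W), 1 / (T : ℝ) := by
          apply Finset.sum_le_sum
          intro t ht
          rw [Finset.mem_filter, hS, Finset.mem_filter] at ht
          by_contra hlt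
          push Not at hlt
          refine ht.2 (hwild t ht.1.2.1 ?_ hlt.le)
          rintro rfl
          exact ht.1.2.2 rfl
      _ = (S.filter (fun t => t ∉ W)).card * (1 / (T : ℝ)) := by
          rw [Finset.sum_const, nsmul_eq_mul]
      _ ≤ T * (1 / (T : ℝ)) := mul_le_mul_of_nonneg_right hc (by positivity)
      _ = 1 := by field_simp
  set A : Finset (M ≃ₐ[F] M) := S.filter (fun t => t ∈ W) with hA
  have hbigA : (1 : ℝ) ≤ ∑ t ∈ A, wv v.1 p (t x0 - x0) := by linarith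
  -- values
  have hζ0 : ζ ≠ 0 := hζ.ne_zero (pow_pos hp.pos _).ne'
  have hvζ : v.1 ζ = 1 := by
    have h := congrArg v.1 hζ.pow_eq_one
    rw [map_pow, map_one] at h
    exact (pow_eq_one_iff_of_nonneg (AbsoluteValue.nonneg _ _) (pow_pos hp.pos _).ne').1 h
  have hval : ∀ s ∈ A, ∑ t ∈ univ.filter (fun t : M ≃ₐ[F] M => t ζ = s ζ),
      wv v.1 p (t x0 - x0) ≤ 1 / (p : ℝ) ^ (2 * j) := by
    intro s hs
    rw [hA, Finset.mem_filter, hS, Finset.mem_filter] at hs
    have hsz : s z ≠ z := hs.1.2.2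
    have hsζ : s ζ ≠ ζ := by
      intro h
      apply hsz
      rw [hzd, map_pow, h]
    have hco := h2 F M p hp v hv x0 hx0 (p ^ n2) ζ 1 (pow_pos hp.pos _) hζ0
      (by rw [hζ.pow_eq_one, map_one]) hvζ.le s hsζ
    refine hco.trans ?_
    set u : M := s ζ / ζ with hu
    have hu1 : u ^ (p ^ n2) = 1 := by
      rw [hu, div_pow, ← map_pow, hζ.pow_eq_one, map_one, div_one]
    have hu2 : u ^ (p ^ (2 * j)) ≠ 1 := by
      rw [hu, div_pow, ← map_pow, ← hzd]
      intro h
      rw [div_eq_one_iff_eq (pow_ne_zero _ hζ0)] at h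
      exact hsz h
    obtain ⟨i, hi, hio⟩ := (Nat.dvd_prime_pow hp).1 (orderOf_dvd_of_pow_eq_one hu1)
    have hij : 2 * j < i := by
      by_contra hle
      push Not at hle
      apply hu2
      apply orderOf_dvd_iff_pow_eq_one.1
      rw [hio]
      exact pow_dvd_pow p hle
    have hup : IsPrimitiveRoot u (p ^ i) := by
      rw [← hio]
      exact IsPrimitiveRoot.orderOf u
    have hw := hprim i u (by omega) hup
    have e1 : wv v.1 p (s ζ - ζ) = wv v.1 p (1 - u) := by
      unfold wv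
      have : s ζ - ζ = -(ζ * (1 - u)) := by
        rw [hu]
        field_simp
        ring
      rw [this, map_neg_eq_map, map_mul, hvζ, one_mul]
    rw [e1, hw]
    have hpR : (1 : ℝ) ≤ p := by exact_mod_cast hp.one_lt.le
    have hpR2 : (2 : ℝ) ≤ p := by exact_mod_cast hp.two_le
    apply one_div_le_one_div_of_le (by positivity)
    calc (p : ℝ) ^ (2 * j) ≤ (p : ℝ) ^ (i - 1) := pow_le_pow_right₀ hpR (by omega)
      _ = (p : ℝ) ^ (i - 1) * 1 := by ring
      _ ≤ (p : ℝ) ^ (i - 1) * (p - 1) := by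
          apply mul_le_mul_of_nonneg_left (by linarith) (by positivity)
  set Y : Finset M := A.image (fun t => t ζ) with hY
  have hYsum : ∑ t ∈ A, wv v.1 p (t x0 - x0) ≤ Y.card * (1 / (p : ℝ) ^ (2 * j)) := by
    have hfib : ∑ t ∈ A, wv v.1 p (t x0 - x0) =
        ∑ y ∈ Y, ∑ t ∈ A.filter (fun t => t ζ = y), wv v.1 p (t x0 - x0) :=
      (Finset.sum_fiberwise_of_maps_to (fun t ht => Finset.mem_image_of_mem _ ht) _).symm
    rw [hfib]
    calc ∑ y ∈ Y, ∑ t ∈ A.filter (fun t => t ζ = y), wv v.1 p (t x0 - x0)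
        ≤ ∑ y ∈ Y, 1 / (p : ℝ) ^ (2 * j) := by
          apply Finset.sum_le_sum
          intro y hy
          rw [hY, Finset.mem_image] at hy
          obtain ⟨s, hs, rfl⟩ := hy
          refine le_trans ?_ (hval s hs)
          apply Finset.sum_le_sum_of_subset_of_nonneg
          · intro t ht
            rw [Finset.mem_filter] at ht ⊢
            exact ⟨Finset.mem_univ _, ht.2⟩
          · intro t _ _
            exact hnn t
      _ = Y.card * (1 / (p : ℝ) ^ (2 * j)) := by rw [Finset.sum_const, nsmul_eq_mul]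
  have hYcard : p ^ (2 * j) ≤ Y.card := by
    have hpos : (0 : ℝ) < (p : ℝ) ^ (2 * j) := by
      have : (0 : ℝ) < p := by exact_mod_cast hp.pos
      positivity
    have h := hbigA.trans hYsum
    rw [mul_one_div, le_div_iff₀ hpos, one_mul] at h
    exact_mod_cast h
  refine hYcard.trans ?_
  -- the index
  have hch : ∀ y : Y, ∃ t : W, t.1 ζ = y.1 := by
    rintro ⟨y, hy⟩
    rw [hY, Finset.mem_image] at hy
    obtain ⟨t, ht, hty⟩ := hy
    rw [hA, Finset.mem_filter] at ht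
    exact ⟨⟨t, ht.2⟩, hty⟩
  choose f hf using hch
  have hinj : Function.Injective (fun y : Y =>
      (QuotientGroup.mk (f y) : W ⧸ (UU F M (p ^ n2)).subgroupOf W)) := by
    intro y y' h
    have h' := QuotientGroup.eq.1 h
    rw [Subgroup.mem_subgroupOf] at h'
    have h'' : ((f y)⁻¹ * f y').1 ζ = ζ := h' ζ hζ.pow_eq_one
    apply Subtype.ext
    rw [← hf y, ← hf y']
    have e : (f y').1 ζ = (f y).1 (((f y)⁻¹ * f y').1 ζ) := by
      rw [← AlgEquiv.mul_apply, ← Subgroup.coe_mul, mul_inv_cancel_left]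
    rw [e, h'']
  have hfin : Finite (W ⧸ (UU F M (p ^ n2)).subgroupOf W) := inferInstance
  have hle := Nat.card_le_card_of_injective _ hinj
  rw [Nat.card_eq_fintype_card, Fintype.card_coe] at hle
  exact hle

end Pool.Agent.H4.RQ
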